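import Pool.Agent.X3.HLFin

/-!
MP_f6dccc_co, Q1 (affirmative): `log w(x; -1)` plus the two correction sums of the problem is a
power series in the odd power sums.

All definitions are in `Pool/Agent/X3/HLDef.lean`.  A symmetric formal power series in countably
many variables is the compatible sequence of its images in the variables `x_1, …, x_N`; the image
of `P_λ(x; t)` in `N` variables is given by Macdonald III (2.2) if `λ` has at most `N` parts, and it
is `0` otherwise.

* `Rg N = ℚ[x_1, …, x_N, a, b, c, d]` and `Fr N` is its field of fractions.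
* `IsHL t lam P`: `P` is the Hall-Littlewood polynomial `P_lam(x_1, …, x_N; t)`.
* `wSer P N`: the image of `w(x; -1)`, the power series variable records the degree in `x`.
* `LL P N = log (wSer P N) + corr N`: the image of `L`.
* `pw N k`: the power sum `p_k(x_1, …, x_N)`.

The theorem: the Hall-Littlewood polynomials exist and are unique (all `t`, all partitions `lam`
with at most `N` parts), `w` has constant term `1`, and the component of degree `m` of `L` is a
polynomial `H` in `p_1, p_3, p_5, …` with coefficients in `ℚ[a, b, c, d]`, the same for all numbers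
`N` of variables.
-/

set_option autoImplicit false

namespace Pool.Agent.Results.MP_f6dccc_co.HallLittlewoodMinusOne

open MvPolynomial Pool.Agent.X3.HL

theorem result :
    (∀ (t : ℚ) (N : ℕ) (lam : Fin N → ℕ), ∃! P : Rg N, IsHL t lam P) ∧
    ∀ P : (N : ℕ) → (Fin N → ℕ) → Rg N, (∀ N (lam : Fin N → ℕ), IsHL (-1) lam (P N lam)) →
      (∀ N, PowerSeries.constantCoeff (wSer P N) = 1) ∧
      ∀ m : ℕ, ∃ H : MvPolynomial (ℕ ⊕ Fin 4) ℚ, ∀ N,
        PowerSeries.coeff m (LL P N) =
          aeval (Sum.elim (fun j : ℕ => pw N (2 * j + 1)) (fun j => X (Sum.inr j))) H :=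
  ⟨fun t _ lam => exists_isHL t lam, fun _ hP => ⟨fun N => const_wSer hP N, fun m => main hP m⟩⟩

end Pool.Agent.Results.MP_f6dccc_co.HallLittlewoodMinusOne
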